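import Pool.Agent.AdmDet.Adm

/-!
# MP_a06539_co: Q1 and all cases of equality
-/

namespace Pool.Agent.Results.MP_a06539_co.EqualityCase

open Pool.Agent.AdmDet

theorem result (m : ℕ) (B : Matrix (Fin m) (Fin (m + 1)) ℝ) (hB : Admissible B)
    (j : Fin (m + 1)) :
    |(B.submatrix id j.succAbove).det| ≤ 2 ^ m ∧
      (|(B.submatrix id j.succAbove).det| = 2 ^ m ↔
        ∃ σ τ : Equiv.Perm (Fin m), (∀ r, B (σ r) (j.succAbove (τ r)) = 2) ∧
          ∀ r t, t < r → B (σ r) (j.succAbove (τ t)) = 0) :=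
  ⟨abs_bound m B hB j, equality_iff m B hB j⟩

end Pool.Agent.Results.MP_a06539_co.EqualityCase
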