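import Pool.Agent.AdmDet.Adm

/-!
# MP_a06539_co: `det(B^(j))^2 ≤ 4^a 3^b`

`a` = number of rows of the admissible matrix `B` with two nonzero entries, `b` = number of rows
with three nonzero entries.  (Q1 asks for `det(B^(j))^2 ≤ 4^(n-1)`.)
-/

namespace Pool.Agent.Results.MP_a06539_co.SquareRootThree

open Pool.Agent.AdmDet

theorem result (m : ℕ) (B : Matrix (Fin m) (Fin (m + 1)) ℝ) (hB : Admissible B)
    (j : Fin (m + 1)) :
    (B.submatrix id j.succAbove).det ^ 2 ≤ 4 ^ rowsWith B 2 * 3 ^ rowsWith B 3 :=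
  sq_bound m B hB j

end Pool.Agent.Results.MP_a06539_co.SquareRootThree
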